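import Pool.Agent.Helper91.MC9.Spec

/-!
# MC9, part BLK: new edges only join different copies of the same unique component
-/

set_option autoImplicit false

namespace Pool.Agent.Helper53.MC9.BLK

open SimpleGraph Pool.Agent.Helper91.MC9

/-- an edge-maximal free graph with one more edge does not embed in a free graph -/
theorem no_embed (hEMB : S_EMB) (ℋ : Set (Σ m, SimpleGraph (Fin m))) {V V' : Type}
    (G : SimpleGraph V) (G' : SimpleGraph V') (hG : EdgeMax ℋ G) (hG' : Free ℋ G')
    (u v : V) (huv : u ≠ v) (hn : ¬ G.Adj u v) (φ : V → V') (hφ : Function.Injective φ)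
    (hadj : ∀ x y, G.Adj x y → G'.Adj (φ x) (φ y)) (hnew : G'.Adj (φ u) (φ v)) : False := by
  apply hG.2 u v huv hn
  intro H hH hmin
  apply hG' H hH
  refine hEMB _ _ _ H.2 (G ⊔ edge u v) G' φ hφ ?_ hmin
  intro x y hxy
  rcases hxy with h | h
  · exact hadj x y h
  · rw [edge_adj] at h
    rcases h.1 with ⟨h1, h2⟩ | ⟨h1, h2⟩
    · rw [h1, h2]; exact hnew
    · rw [h1, h2]; exact hnew.symm

theorem main (hEMB : S_EMB) : S_BLK := by
  classical
  intro ℋ V G m G' hG hG' hle i j x y hadj hnot
  have hcopy : ∀ (k : Fin m) (a b : V), G.Adj a b → G'.Adj (k, a) (k, b) := fun k a b h =>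
    hle ⟨rfl, h⟩
  have hcomp : ∀ a b, G.Adj a b → G.connectedComponentMk a = G.connectedComponentMk b :=
    fun a b h => ConnectedComponent.connectedComponentMk_eq_of_adj h
  by_cases hij : i = j
  · exfalso
    subst hij
    have hxy : ¬ G.Adj x y := fun h => hnot ⟨rfl, h⟩
    have hne : x ≠ y := by
      intro h
      subst h
      exact G'.loopless.irrefl _ hadj
    exact no_embed hEMB ℋ G G' hG hG' x y hne hxy (fun v => (i, v))
      (fun a b h => (Prod.mk.inj h).2) (fun a b h => hcopy i a b h) hadj
  · refine ⟨hij, ?_⟩
    by_cases hxy : G.connectedComponentMk x = G.connectedComponentMk y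
    · refine ⟨hxy, ?_⟩
      intro C' hC'
      refine ⟨fun σ => ?_⟩
      have hyC : y ∈ (G.connectedComponentMk x).supp := hxy.symm
      set y' : C' := σ ⟨y, hyC⟩ with hy'
      have hy'C : G.connectedComponentMk (y' : V) = C' := y'.2
      have hxC' : ¬ G.connectedComponentMk x = C' := fun h => hC' h.symm
      let φ : V → Fin m × V := fun v =>
        if h : G.connectedComponentMk v = C' then (j, ((σ.symm ⟨v, h⟩ : _) : V)) else (i, v)
      have hφ1 : ∀ v (h : G.connectedComponentMk v = C'), φ v = (j, ((σ.symm ⟨v, h⟩ : _) : V)) :=
        fun v h => dif_pos h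
      have hφ2 : ∀ v, ¬ G.connectedComponentMk v = C' → φ v = (i, v) := fun v h => dif_neg h
      refine no_embed hEMB ℋ G G' hG hG' x (y' : V) ?_ ?_ φ ?_ ?_ ?_
      · intro h
        apply hxC'
        rw [h]
        exact hy'C
      · intro h
        apply hxC'
        rw [hcomp _ _ h]
        exact hy'C
      · intro a b hab
        by_cases ha : G.connectedComponentMk a = C'
        · by_cases hb : G.connectedComponentMk b = C'
          · rw [hφ1 a ha, hφ1 b hb] at hab
            have h2 := (Prod.mk.inj hab).2
            have h3 := σ.symm.injective (Subtype.ext h2)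
            exact congrArg Subtype.val h3
          · rw [hφ1 a ha, hφ2 b hb] at hab
            exact absurd (Prod.mk.inj hab).1.symm hij
        · by_cases hb : G.connectedComponentMk b = C'
          · rw [hφ2 a ha, hφ1 b hb] at hab
            exact absurd (Prod.mk.inj hab).1 hij
          · rw [hφ2 a ha, hφ2 b hb] at hab
            exact (Prod.mk.inj hab).2
      · intro a b hab
        by_cases ha : G.connectedComponentMk a = C'
        · have hb : G.connectedComponentMk b = C' := by rw [← hcomp a b hab]; exact ha
          rw [hφ1 a ha, hφ1 b hb]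
          apply hcopy
          have h1 : C'.toSimpleGraph.Adj ⟨a, ha⟩ ⟨b, hb⟩ := hab
          have h2 := (σ.symm.map_adj_iff).2 h1
          exact h2
        · have hb : ¬ G.connectedComponentMk b = C' := by rw [← hcomp a b hab]; exact ha
          rw [hφ2 a ha, hφ2 b hb]
          exact hcopy i a b hab
      · rw [hφ2 x hxC', hφ1 _ hy'C]
        have h3 : ((σ.symm ⟨(y' : V), hy'C⟩ : _) : V) = y := by
          have h4 : (⟨(y' : V), hy'C⟩ : C'.supp) = σ ⟨y, hyC⟩ := rfl
          have h5 : σ.symm ⟨(y' : V), hy'C⟩ = ⟨y, hyC⟩ := by
            rw [h4]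
            exact σ.symm_apply_apply _
          rw [h5]
        rw [h3]
        exact hadj
    · exfalso
      let φ : V → Fin m × V := fun v =>
        if G.connectedComponentMk v = G.connectedComponentMk y then (j, v) else (i, v)
      have hφ1 : ∀ v, G.connectedComponentMk v = G.connectedComponentMk y → φ v = (j, v) :=
        fun v h => if_pos h
      have hφ2 : ∀ v, ¬ G.connectedComponentMk v = G.connectedComponentMk y → φ v = (i, v) :=
        fun v h => if_neg h
      refine no_embed hEMB ℋ G G' hG hG' x y ?_ ?_ φ ?_ ?_ ?_
      · intro h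
        exact hxy (by rw [h])
      · intro h
        exact hxy (hcomp _ _ h)
      · intro a b hab
        have h2 : ∀ v, (φ v).2 = v := by
          intro v
          by_cases h : G.connectedComponentMk v = G.connectedComponentMk y
          · rw [hφ1 v h]
          · rw [hφ2 v h]
        rw [← h2 a, ← h2 b, hab]
      · intro a b hab
        by_cases ha : G.connectedComponentMk a = G.connectedComponentMk y
        · have hb : G.connectedComponentMk b = G.connectedComponentMk y := by
            rw [← hcomp a b hab]; exact ha
          rw [hφ1 a ha, hφ1 b hb]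
          exact hcopy j a b hab
        · have hb : ¬ G.connectedComponentMk b = G.connectedComponentMk y := by
            rw [← hcomp a b hab]; exact ha
          rw [hφ2 a ha, hφ2 b hb]
          exact hcopy i a b hab
      · rw [hφ2 x hxy, hφ1 y rfl]
        exact hadj

end Pool.Agent.Helper53.MC9.BLK
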